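import Pool.Agent.N836.SM.Stm
import Pool.Agent.W85.FB.GAL

/-!
# Permutations and conjugates (part D of the proof of S18875)

All permutations of the roots of `X ^ n - X - 1` come from automorphisms of an algebraic closure
(starting library, `Pool.Agent.W85.FB.gal`); a pigeonhole argument makes them automorphisms over a
number field.
-/

set_option autoImplicit false
open scoped NumberField

namespace Pool.Agent.N783.SM

open Polynomial Pool.Agent.N836.SM

/-- Permutations of the roots of the Selmer polynomial extend to automorphisms. -/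
theorem perm_auto (Ω : Type) [Field Ω] [Algebra ℚ Ω] [IsAlgClosed Ω]
    [Algebra.IsAlgebraic ℚ Ω] (n : ℕ) (hn : 2 ≤ n) :
    ∃ θ : Fin n → Ω, Function.Injective θ ∧
      ∀ π : Equiv.Perm (Fin n), ∃ σ : Ω ≃ₐ[ℚ] Ω, ∀ k, σ (θ k) = θ (π k) := by
  classical
  set p : ℚ[X] := X ^ n - X - 1 with hp
  have hsep : p.Separable :=
    (X_pow_sub_X_sub_one_irreducible_rat (by omega)).separable
  have hdeg : p.natDegree = n := Pool.Agent.Helper259.Selmer.natDegree_aux hn
  have hcard : Fintype.card (p.rootSet p.SplittingField) = n := by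
    have h := card_rootSet_eq_natDegree (K := p.SplittingField) hsep (SplittingField.splits p)
    rw [hdeg] at h
    convert h <;> first | rfl | exact Subsingleton.elim _ _
  let e : Fin n ≃ p.rootSet p.SplittingField := (Fintype.equivFinOfCardEq hcard).symm
  let ι : p.SplittingField →ₐ[ℚ] Ω := IsAlgClosed.lift
  have hnorm : Normal ℚ Ω := by
    rw [normal_iff]
    exact fun x => ⟨(Algebra.IsAlgebraic.isAlgebraic x).isIntegral, IsAlgClosed.splits _⟩
  refine ⟨fun k => ι (e k).1, fun a b h => ?_, fun π => ?_⟩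
  · exact e.injective (Subtype.ext (ι.toRingHom.injective h))
  · obtain ⟨τ, hτ⟩ := Pool.Agent.W85.FB.gal n hn ((e.symm.trans π).trans e)
    let _ : Algebra p.SplittingField Ω := ι.toRingHom.toAlgebra
    have _ : IsScalarTower ℚ p.SplittingField Ω := IsScalarTower.of_algebraMap_eq
      (fun x => (ι.commutes x).symm)
    refine ⟨τ.liftNormal Ω, fun k => ?_⟩
    have h1 := AlgEquiv.liftNormal_commutes τ Ω (e k).1
    have h2 := hτ (e k)
    have h3 : ((e.symm.trans π).trans e) (e k) = e (π k) := by simp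
    rw [h2, h3] at h1
    exact h1

/-- The same for any finite index set. -/
theorem perm_auto' (Ω : Type) [Field Ω] [Algebra ℚ Ω] [IsAlgClosed Ω]
    [Algebra.IsAlgebraic ℚ Ω] (J : Type) [Fintype J] :
    ∃ θ : J → Ω, Function.Injective θ ∧
      ∀ π : Equiv.Perm J, ∃ σ : Ω ≃ₐ[ℚ] Ω, ∀ k, σ (θ k) = θ (π k) := by
  classical
  obtain ⟨θ, hθ, h⟩ := perm_auto Ω (Fintype.card J + 2) (by omega)
  let f : J ↪ Fin (Fintype.card J + 2) :=
    (Fintype.equivFin J).toEmbedding.trans (Fin.castAddEmb 2)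
  refine ⟨θ ∘ f, hθ.comp f.injective, fun π => ?_⟩
  obtain ⟨σ, hσ⟩ := h (π.viaEmbedding f)
  refine ⟨σ, fun k => ?_⟩
  have := hσ (f k)
  rw [Equiv.Perm.viaEmbedding_apply] at this
  exact this

/-- Vandermonde on a finite index set. -/
theorem vander {Ω J : Type} [Field Ω] [Fintype J] (θ v : J → Ω) (hθ : Function.Injective θ)
    (h : ∀ e : ℕ, ∑ x, v x * θ x ^ e = 0) : v = 0 := by
  classical
  let f := (Fintype.equivFin J).symm
  have h1 : (v ∘ f) = 0 := by
    refine Matrix.eq_zero_of_forall_pow_sum_mul_pow_eq_zero (f := θ ∘ f) (hθ.comp f.injective)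
      (fun i => ?_)
    rw [← h i]
    exact Equiv.sum_comp f (fun x => v x * θ x ^ (i : ℕ))
  funext x
  have := congrFun h1 (f.symm x)
  simpa using this

theorem partD : S_D := by
  intro K _ _ n N a c hc π hrel
  classical
  set Ω := AlgebraicClosure K
  have _ : CharZero Ω := charZero_of_injective_algebraMap (algebraMap K Ω).injective
  have _ : IsScalarTower ℚ K Ω := inferInstance
  have _ : Algebra.IsAlgebraic ℚ Ω := Algebra.IsAlgebraic.trans ℚ K Ω
  set T := Fin n → (K →+* Ω)
  set M := Fintype.card T with hM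
  obtain ⟨θ, hθ, hperm⟩ := perm_auto' Ω (Fin (M + 1) × Fin N)
  have hσ : ∀ (m : Fin (M + 1)) (i : Fin n), ∃ σ : Ω ≃ₐ[ℚ] Ω, ∀ (b : Fin (M + 1)) (k : Fin N),
      σ (θ (b, k)) = θ (b, (if b < m then π i else 1) k) := by
    intro m i
    obtain ⟨σ, hσ⟩ := hperm (Equiv.prodShear (Equiv.refl _) (fun b => if b < m then π i else 1))
    exact ⟨σ, fun b k => hσ (b, k)⟩
  choose σ hσ using hσ
  obtain ⟨m, m', hne, heq⟩ := Fintype.exists_ne_map_eq_of_card_lt
    (fun m : Fin (M + 1) => (fun i => ((σ m i : Ω ≃ₐ[ℚ] Ω) : Ω →+* Ω).comp (algebraMap K Ω) : T))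
    (by rw [← hM]; simp)
  wlog hlt : m < m' generalizing m m'
  · exact this m' m (Ne.symm hne) heq.symm (lt_of_le_of_ne (not_lt.1 hlt) (Ne.symm hne))
  have hfix : ∀ (i : Fin n) (y : K), σ m i (algebraMap K Ω y) = σ m' i (algebraMap K Ω y) := by
    intro i y
    have := congrArg (fun t : T => t i y) heq
    exact this
  have hτ : ∀ i : Fin n, ∃ τ : Ω ≃ₐ[K] Ω, ∀ (b : Fin (M + 1)) (k : Fin N), m ≤ b → b < m' →
      τ (θ (b, k)) = θ (b, π i k) := by
    intro i
    refine ⟨AlgEquiv.ofRingEquiv (f := ((σ m' i).trans (σ m i).symm).toRingEquiv) (fun y => ?_),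
      fun b k h1 h2 => ?_⟩
    · change (σ m i).symm (σ m' i (algebraMap K Ω y)) = algebraMap K Ω y
      rw [← hfix, AlgEquiv.symm_apply_apply]
    · change (σ m i).symm (σ m' i (θ (b, k))) = θ (b, π i k)
      rw [hσ m' i b k, if_pos h2, AlgEquiv.symm_apply_eq, hσ m i b (π i k), if_neg (not_lt.2 h1)]
      rfl
  choose τ hτ using hτ
  set B : Finset (Fin (M + 1)) := Finset.univ.filter (fun b => m ≤ b ∧ b < m') with hB
  have hex : ∃ e : ℕ, ∑ b ∈ B, ∑ k, algebraMap K Ω (c k) * θ (b, k) ^ e ≠ 0 := by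
    by_contra hcon
    push Not at hcon
    have h0 := vander θ (fun x => if x.1 ∈ B then algebraMap K Ω (c x.2) else 0) hθ (fun e => by
      rw [Fintype.sum_prod_type]
      refine (Finset.sum_subset (Finset.subset_univ B) (fun b _ hb => ?_)).symm.trans ?_
      · exact Finset.sum_eq_zero fun k _ => by rw [if_neg hb, zero_mul]
      · rw [← hcon e]
        refine Finset.sum_congr rfl fun b hb => Finset.sum_congr rfl fun k _ => ?_
        simp only [hb, if_true])
    apply hc
    funext k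
    have h1 := congrFun h0 (m, k)
    have hm : m ∈ B := by simp [hB, hlt]
    simp only [hm, if_true, Pi.zero_apply] at h1
    simpa using (map_eq_zero _).1 h1
  obtain ⟨e, he⟩ := hex
  have key : ∀ i, τ i (∑ b ∈ B, ∑ k, algebraMap K Ω (c (π i k)) * θ (b, k) ^ e)
      = ∑ b ∈ B, ∑ k, algebraMap K Ω (c k) * θ (b, k) ^ e := by
    intro i
    rw [map_sum]
    refine Finset.sum_congr rfl fun b hb => ?_
    have hb' := (Finset.mem_filter.1 hb).2
    rw [map_sum, ← Equiv.sum_comp (π i) (fun k => algebraMap K Ω (c k) * θ (b, k) ^ e)]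
    refine Finset.sum_congr rfl fun k _ => ?_
    rw [map_mul, map_pow, AlgEquiv.commutes, hτ i b k hb'.1 hb'.2]
  refine ⟨fun i => ∑ b ∈ B, ∑ k, algebraMap K Ω (c (π i k)) * θ (b, k) ^ e, fun i h => ?_,
    fun i j => ?_, ?_⟩
  · have h' : ∑ b ∈ B, ∑ k, algebraMap K Ω (c (π i k)) * θ (b, k) ^ e = 0 := h
    apply he
    rw [← key i, h', map_zero]
  · change minpoly K (∑ b ∈ B, ∑ k, algebraMap K Ω (c (π i k)) * θ (b, k) ^ e)
      = minpoly K (∑ b ∈ B, ∑ k, algebraMap K Ω (c (π j k)) * θ (b, k) ^ e)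
    rw [← minpoly.algEquiv_eq (τ i), ← minpoly.algEquiv_eq (τ j)
      (∑ b ∈ B, ∑ k, algebraMap K Ω (c (π j k)) * θ (b, k) ^ e), key i, key j]
  · simp_rw [Finset.mul_sum]
    rw [Finset.sum_comm]
    refine Finset.sum_eq_zero fun b _ => ?_
    rw [Finset.sum_comm]
    refine Finset.sum_eq_zero fun k _ => ?_
    have h1 := congrArg (algebraMap K Ω) (hrel k)
    rw [map_sum, map_zero] at h1
    calc ∑ i, algebraMap K Ω (a i) * (algebraMap K Ω (c (π i k)) * θ (b, k) ^ e)
        = (∑ i, algebraMap K Ω (a i * c (π i k))) * θ (b, k) ^ e := by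
          rw [Finset.sum_mul]
          exact Finset.sum_congr rfl fun i _ => by rw [map_mul, mul_assoc]
      _ = 0 := by rw [h1, zero_mul]

end Pool.Agent.N783.SM
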